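import Pool.Agent.W221.NS.Stm4

/-!
Project MH (helper221), task MH-WHOLE3: separated singular points in the whole space, with force.
-/

set_option autoImplicit false

open MeasureTheory Set Metric Filter Topology
open scoped ContDiff ENNReal

namespace Pool.Agent.W52.MH

open H459R3.NS W221.NS

theorem t_WHOLE3 (h : S_COUNT3) : S_WHOLE3 := by
  obtain ⟨C, hC, h⟩ := h
  refine ⟨64 * C + 4, by linarith, fun T E F u p f hT hE hF hS r hr hr1 hFr hrT S hSing hsep => ?_⟩
  have hdv : ∀ t ∈ Ioo 0 T, ∀ x, dv (u t) x = 0 := fun t ht x => hS.divfree t ht x (mem_univ x)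
  have hres : ∀ t ∈ Ioo 0 T, res u p t = f t := by
    intro t ht
    funext x i
    have h1 := hS.momentum t ht x (mem_univ x) i
    show deriv (fun s => u s x i) t + (∑ j, u t x j * pd j (fun y => u t y i) x) -
      (∑ j, pd j (pd j (fun y => u t y i)) x) + pd i (p t) x = f t x i
    rw [h1]
    ring
  have hL : LSol3 T 0 E F univ u p :=
    { openO := isOpen_univ
      smooth_u := hS.smooth_u
      smooth_p := hS.smooth_p
      divfree := fun t ht x _ => hdv t ht x
      force := fun t ht => by
        rw [hres t ht]
        exact hS.force t ht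
      en_int := fun t ht => by
        have := hS.en_int t ht
        rwa [integrableOn_univ] at this
      en := fun t ht => by
        have := hS.en t ht
        rwa [Measure.restrict_univ] at this
      dv_int := fun t ht => by
        have : (fun x => dv (u t) x ^ 2) = fun _ => (0 : ℝ) := by
          funext x; rw [hdv t ht x]; norm_num
        rw [this]; exact integrable_zero _ _ _
      dvb := fun t ht => by
        have : (fun x => dv (u t) x ^ 2) = fun _ => (0 : ℝ) := by
          funext x; rw [hdv t ht x]; norm_num
        rw [this]; simp }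
  have e : 2 * (4 * r) ^ 2 = 32 * r ^ 2 := by ring
  have hCr : 0 < C * r := mul_pos hC hr
  have h4r : 4 * r ≤ 1 := by linarith
  have hFr0 : 0 ≤ F * r ^ 3 := mul_nonneg hF (pow_pos hr 3).le
  have hF4 : C * F * (4 * r) ^ 3 ≤ 1 := by
    have e1 : C * F * (4 * r) ^ 3 = 64 * C * (F * r ^ 3) := by ring
    have e2 : (64 * C + 4) * F * r ^ 3 = 64 * C * (F * r ^ 3) + 4 * (F * r ^ 3) := by ring
    rw [e1]
    rw [e2] at hFr
    linarith
  have key := h T 0 E F univ u p le_rfl hE hF hL (4 * r) (by linarith) h4r
    (by rw [e]; exact hrT) (by rw [mul_zero, zero_mul]; norm_num) hF4 S hSing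
    (fun x _ => subset_univ _)
    (fun x hx y hy hxy => by
      have := hsep x hx y hy hxy
      linarith)
  rw [e] at key
  simp only [Measure.restrict_univ] at key
  refine le_trans (ENNReal.ofReal_le_ofReal ?_) (key.trans ?_)
  · have : (0 : ℝ) ≤ S.card := Nat.cast_nonneg _
    nlinarith
  · apply mul_le_mul_left
    apply ENNReal.ofReal_le_ofReal
    linarith

end Pool.Agent.W52.MH
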