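import Pool.Agent.W221.NS.Stm4
import Pool.Agent.H459R3.NS.Ibp
import Pool.Agent.H459R3.NS.Four

/-!
Project MH (helper221), task MH-PERO: a periodic solution with force on a ball.
-/

set_option autoImplicit false

open MeasureTheory Set Metric Filter Topology
open scoped ContDiff ENNReal

namespace Pool.Agent.W52.MH

open H459R3.NS W221.NS

/-- the shift of a cell -/
def shf (m : Fin 3 → Fin 6) : K3 := fun i => ((m i : ℕ) : ℤ) - 3

/-- the half open cell -/
def hcube : Set V := Set.pi univ fun _ => Ico (0 : ℝ) 1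

/-- the translates of the cell -/
def cell (m : Fin 3 → Fin 6) : Set V := (fun x => x - fun i => (shf m i : ℝ)) ⁻¹' hcube

theorem hcube_meas : MeasurableSet hcube := MeasurableSet.univ_pi fun _ => measurableSet_Ico

theorem cell_meas (m : Fin 3 → Fin 6) : MeasurableSet (cell m) :=
  hcube_meas.preimage (by fun_prop)

theorem mem_cell (m : Fin 3 → Fin 6) (x : V) :
    x ∈ cell m ↔ ∀ i, (shf m i : ℝ) ≤ x i ∧ x i < shf m i + 1 := by
  unfold cell hcube
  simp only [mem_preimage, mem_univ_pi, mem_Ico, Pi.sub_apply]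
  constructor
  · intro h i
    have := h i
    constructor <;> linarith [this.1, this.2]
  · intro h i
    have := h i
    constructor <;> linarith [this.1, this.2]

theorem union_cell : (Set.pi univ fun _ : Fin 3 => Ico (-3 : ℝ) 3) = ⋃ m, cell m := by
  ext x
  simp only [mem_univ_pi, mem_iUnion, mem_cell]
  constructor
  · intro hx
    have h1 : ∀ i, ∃ k : Fin 6, ((((k : ℕ) : ℤ) - 3 : ℤ) : ℝ) ≤ x i ∧
        x i < ((((k : ℕ) : ℤ) - 3 : ℤ) : ℝ) + 1 := by
      intro i
      have h2 := hx i
      have h3 : -3 ≤ ⌊x i⌋ := Int.le_floor.2 (by push_cast; exact h2.1)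
      have h4 : ⌊x i⌋ < 3 := Int.floor_lt.2 (by push_cast; exact h2.2)
      refine ⟨⟨(⌊x i⌋ + 3).toNat, by omega⟩, ?_⟩
      have h5 : ((((⌊x i⌋ + 3).toNat : ℕ) : ℤ) - 3 : ℤ) = ⌊x i⌋ := by omega
      simp only [h5]
      exact ⟨Int.floor_le (x i), Int.lt_floor_add_one (x i)⟩
    choose k hk using h1
    exact ⟨k, hk⟩
  · rintro ⟨m, hm⟩ i
    have h1 := hm i
    have h2 : (-3 : ℝ) ≤ shf m i := by
      have : (-3 : ℤ) ≤ shf m i := by unfold shf; omega
      exact_mod_cast this
    have h3 : (shf m i : ℝ) + 1 ≤ 3 := by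
      have : shf m i + 1 ≤ 3 := by unfold shf; have := (m i).2; omega
      exact_mod_cast this
    exact ⟨h2.trans h1.1, h1.2.trans_le h3⟩

theorem cell_disj : Pairwise (Function.onFun Disjoint cell) := by
  intro m m' hmm
  rw [Function.onFun, Set.disjoint_left]
  intro x hx hx'
  apply hmm
  rw [mem_cell] at hx hx'
  funext i
  have h1 := hx i
  have h2 := hx' i
  have h3 : shf m i < shf m' i + 1 := by
    have : (shf m i : ℝ) < shf m' i + 1 := h1.1.trans_lt h2.2
    exact_mod_cast this
  have h4 : shf m' i < shf m i + 1 := by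
    have : (shf m' i : ℝ) < shf m i + 1 := h2.1.trans_lt h1.2
    exact_mod_cast this
  have h5 : shf m i = shf m' i := by omega
  unfold shf at h5
  apply Fin.ext
  omega

theorem big (g : V → ℝ) (hg : Continuous g) (hp : Per g) (h0 : ∀ x, 0 ≤ g x) :
    ∫⁻ y in ball (0 : V) 3, ENNReal.ofReal (g y) = ENNReal.ofReal (216 * ∫ x in cube, g x) := by
  have hm : Measurable fun x => ENNReal.ofReal (g x) := hg.measurable.ennreal_ofReal
  have hball : ball (0 : V) 3 = Set.pi univ fun _ : Fin 3 => Ioo (-3 : ℝ) 3 := by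
    rw [ball_pi _ (by norm_num)]
    congr 1
    funext i
    rw [Real.ball_eq_Ioo]
    norm_num
  have hae : (ball (0 : V) 3 : Set V) =ᵐ[volume] (Set.pi univ fun _ : Fin 3 => Ico (-3 : ℝ) 3) := by
    rw [hball]
    have a1 : (Set.pi univ fun _ : Fin 3 => Ioo (-3 : ℝ) 3) =ᵐ[(volume : Measure V)]
        Icc (fun _ => (-3 : ℝ)) (fun _ => 3) := Measure.univ_pi_Ioo_ae_eq_Icc
    have a2 : (Set.pi univ fun _ : Fin 3 => Ico (-3 : ℝ) 3) =ᵐ[(volume : Measure V)]
        Icc (fun _ => (-3 : ℝ)) (fun _ => 3) := Measure.univ_pi_Ico_ae_eq_Icc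
    exact a1.trans a2.symm
  have hcae : (hcube : Set V) =ᵐ[volume] cube := by
    have a2 : (Set.pi univ fun _ : Fin 3 => Ico (0 : ℝ) 1) =ᵐ[(volume : Measure V)]
        Icc (fun _ => (0 : ℝ)) (fun _ => 1) := Measure.univ_pi_Ico_ae_eq_Icc
    exact a2
  have hcell : ∀ m, ∫⁻ x in cell m, ENNReal.ofReal (g x) =
      ∫⁻ x in cube, ENNReal.ofReal (g x) := by
    intro m
    rw [← setLIntegral_congr hcae]
    have h1 := (measurePreserving_sub_right (volume : Measure V)
      (fun i => (shf m i : ℝ))).setLIntegral_comp_preimage hcube_meas hm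
    rw [← h1]
    refine lintegral_congr fun x => ?_
    have h2 := hp.int (fun i => -shf m i) x
    have h3 : (x + fun i => ((-shf m i : ℤ) : ℝ)) = x - fun i => (shf m i : ℝ) := by
      funext i
      simp [sub_eq_add_neg]
    rw [h3] at h2
    rw [h2]
  have hE : ∫⁻ x in cube, ENNReal.ofReal (g x) = ENNReal.ofReal (∫ x in cube, g x) := by
    rw [ofReal_integral_eq_lintegral_ofReal (integrableOn_cube hg)
      (Filter.Eventually.of_forall h0)]
  rw [setLIntegral_congr hae, union_cell, lintegral_iUnion cell_meas cell_disj]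
  simp only [hcell, hE]
  rw [tsum_fintype, Finset.sum_const, ENNReal.ofReal_mul (by norm_num), nsmul_eq_mul]
  congr 1
  simp

theorem int_ball {f : V → ℝ} (hf : Continuous f) (r : ℝ) : IntegrableOn f (ball (0 : V) r) :=
  (hf.locallyIntegrable.integrableOn_isCompact (isCompact_closedBall (0 : V) r)).mono_set
    ball_subset_closedBall

theorem bigr (g : V → ℝ) (hg : Continuous g) (hp : Per g) (h0 : ∀ x, 0 ≤ g x) :
    ∫ y in ball (0 : V) 3, g y = 216 * ∫ x in cube, g x := by
  have h1 := big g hg hp h0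
  rw [← ofReal_integral_eq_lintegral_ofReal (int_ball hg 3) (Filter.Eventually.of_forall h0)] at h1
  have h2 : 0 ≤ ∫ y in ball (0 : V) 3, g y := integral_nonneg h0
  have h3 : 0 ≤ 216 * ∫ x in cube, g x := mul_nonneg (by norm_num) (integral_nonneg h0)
  exact (ENNReal.ofReal_eq_ofReal_iff h2 h3).1 h1

theorem t_PERO : S_PERO := by
  constructor
  · intro ν T E F u p f hT hE h hen
    have hIoo : ∀ t ∈ Ioo 0 T, t ∈ Ico 0 T := fun t ht => ⟨ht.1.le, ht.2⟩
    have hcu : ∀ t ∈ Ico 0 T, ContDiff ℝ ∞ (u t) := by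
      intro t ht'
      have h1 := h.smooth_u
      rw [contDiff_iff_contDiffAt]
      intro y
      have h2 : ContDiffWithinAt ℝ ∞ (fun y : V => (t, y)) univ y :=
        (contDiff_prodMk_right t).contDiffWithinAt
      have h3 := (h1 (t, y) ⟨ht', mem_univ _⟩).comp y h2 (fun z _ => ⟨ht', mem_univ _⟩)
      exact contDiffWithinAt_univ.1 h3
    have hnc : ∀ t ∈ Ioo 0 T, Continuous (nsq (u t)) := by
      intro t ht
      have h1 := (hcu t (hIoo t ht)).continuous
      unfold nsq
      fun_prop
    have hsub : Ioo 0 T ×ˢ (ball (0 : V) 3) ⊆ Ico 0 T ×ˢ univ :=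
      prod_mono Ioo_subset_Ico_self (subset_univ _)
    refine
      { openO := isOpen_ball
        smooth_u := h.smooth_u.mono hsub
        smooth_p := h.smooth_p.mono hsub
        divfree := fun t ht x _ => h.divfree t (hIoo t ht) x
        momentum := fun t ht x _ i => h.momentum t ht x i
        force := fun t ht x _ i => h.force t ht x (mem_univ x) i
        en_int := fun t ht => int_ball (hnc t ht) 3
        en := ?_ }
    intro t ht
    have hper : Per (nsq (u t)) := by
      intro i x
      unfold nsq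
      rw [h.per_u t (hIoo t ht) i x]
    have hnn : ∀ x, 0 ≤ nsq (u t) x := fun x => Finset.sum_nonneg fun i _ => sq_nonneg _
    rw [bigr _ (hnc t ht) hper hnn]
    have h2 : ∫ z in cube, nsq (u t) z = energy (u t) := by
      unfold nsq energy
      rw [integral_finsetSum]
      intro i _
      exact integrableOn_cube (((continuous_apply i).comp (hcu t (hIoo t ht)).continuous).pow 2)
    rw [h2]
    have h3 := hen t ht
    have h4 : (15 * E) ^ 2 = 225 * E ^ 2 := by ring
    rw [h4]
    nlinarith [sq_nonneg E]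
  · intro v hv
    have hsp : ∀ i, SP (fun y => v y i) := fun i =>
      ⟨(contDiff_pi.mp hv.1) i, fun j x => by rw [hv.2 j x]⟩
    have hpd : ∀ i j, SP (pd j (fun y => v y i)) := fun i j => (hsp i).pd j
    have hgc : Continuous (gsq v) := by
      unfold gsq
      exact continuous_finsetSum _ fun i _ => continuous_finsetSum _ fun j _ =>
        ((hpd i j).cont).pow 2
    have hgp : Per (gsq v) := by
      intro k x
      unfold gsq
      refine Finset.sum_congr rfl fun i _ => Finset.sum_congr rfl fun j _ => ?_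
      rw [(hpd i j).per k x]
    have hg0 : ∀ x, 0 ≤ gsq v x := fun x =>
      Finset.sum_nonneg fun i _ => Finset.sum_nonneg fun j _ => sq_nonneg _
    have h4 : ∫ x in cube, gsq v x = enstrophy v := by
      unfold gsq enstrophy
      rw [integral_finsetSum]
      · refine Finset.sum_congr rfl fun i _ => ?_
        rw [integral_finsetSum]
        intro j _
        exact integrableOn_cube (((hpd i j).cont).pow 2)
      · intro i _
        exact integrableOn_cube (continuous_finsetSum _ fun j _ => ((hpd i j).cont).pow 2)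
    rw [big _ hgc hgp hg0, h4]

end Pool.Agent.W52.MH
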